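import Mathlib
import Pool.Agent.H958.RL.Stm2

/-!
# Project RL, task ENB
-/

set_option autoImplicit false

namespace Pool.Agent.H291.RL.Enb

open Finset Filter Topology
open Pool.Agent.H958.RL

noncomputable section

/-- The required threshold exists. -/
lemma exists_c0 (e A : ℝ) (he : 0 < e) (hA : 0 < A) : ∃ c0 : ℝ, 1 ≤ c0 ∧ ∀ c : ℝ, c0 ≤ c →
    (4 * A + 20) * c / e + 2 ≤ Real.exp (e * c / 2) := by
  refine ⟨max 1 (8 * ((4 * A + 20) / e + 2) / e ^ 2), le_max_left _ _, fun c hc => ?_⟩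
  have hc1 : 1 ≤ c := le_trans (le_max_left _ _) hc
  have hc2 : 8 * ((4 * A + 20) / e + 2) / e ^ 2 ≤ c := le_trans (le_max_right _ _) hc
  have he2 : 0 < e ^ 2 := by positivity
  rw [div_le_iff₀ he2] at hc2
  have h1 : 1 + e * c / 2 + (e * c / 2) ^ 2 / 2 ≤ Real.exp (e * c / 2) :=
    Real.quadratic_le_exp_of_nonneg (by positivity)
  have h2 : 0 ≤ e * c / 2 := by positivity
  have h3 : (4 * A + 20) * c / e + 2 ≤ ((4 * A + 20) / e + 2) * c := by
    have : (4 * A + 20) * c / e = (4 * A + 20) / e * c := by ring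
    rw [this]
    nlinarith
  have h4 : ((4 * A + 20) / e + 2) * c ≤ (e * c / 2) ^ 2 / 2 := by
    have : ((4 * A + 20) / e + 2) * 8 * c ≤ (c * e ^ 2) * c := by
      apply mul_le_mul_of_nonneg_right _ (by linarith)
      linarith
    nlinarith
  linarith

/-- The bound for the quantity `δ`. -/
lemma delta_le (e A c : ℝ) (n K r : ℕ) (he : 0 < e) (he1 : e ≤ 1) (hA : 0 < A) (hc1 : 1 ≤ c)
    (hcn : c < n) (hK : Real.exp ((1 + e) * c) ≤ (K : ℝ))
    (hr : (4 * A + 20) * c / e ≤ (r : ℝ)) (hr' : (r : ℝ) + 1 ≤ Real.exp (e * c / 2)) :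
    ((r + 1).factorial : ℝ) * (1 + ((r + 1 : ℕ) : ℝ) * (c / n)) ^ n / (K : ℝ) ^ r ≤
      Real.exp (-((2 * A + 8) * c ^ 2)) := by
  have hn : (0 : ℝ) < n := by linarith
  have h1 : ((r + 1).factorial : ℝ) ≤ Real.exp (e * c / 2 * ((r : ℝ) + 1)) := by
    have h := Nat.factorial_le_pow (r + 1)
    have h' : ((r + 1).factorial : ℝ) ≤ ((r : ℝ) + 1) ^ (r + 1) := by exact_mod_cast h
    refine h'.trans ((pow_le_pow_left₀ (by positivity) hr' _).trans ?_)
    rw [← Real.exp_nat_mul]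
    apply le_of_eq
    congr 1
    push_cast
    ring
  have h2 : (1 + ((r + 1 : ℕ) : ℝ) * (c / n)) ^ n ≤ Real.exp (((r : ℝ) + 1) * c) := by
    have h : 1 + ((r + 1 : ℕ) : ℝ) * (c / n) ≤ Real.exp (((r + 1 : ℕ) : ℝ) * (c / n)) := by
      have := Real.add_one_le_exp (((r + 1 : ℕ) : ℝ) * (c / n))
      linarith
    refine (pow_le_pow_left₀ (by positivity) h _).trans ?_
    rw [← Real.exp_nat_mul]
    apply le_of_eq
    congr 1
    push_cast
    field_simp
  have h3 : Real.exp ((1 + e) * c * r) ≤ (K : ℝ) ^ r := by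
    refine le_trans (le_of_eq ?_) (pow_le_pow_left₀ (Real.exp_pos _).le hK r)
    rw [← Real.exp_nat_mul]
    congr 1
    ring
  have h4 : ((r + 1).factorial : ℝ) * (1 + ((r + 1 : ℕ) : ℝ) * (c / n)) ^ n / (K : ℝ) ^ r ≤
      Real.exp (e * c / 2 * ((r : ℝ) + 1)) * Real.exp (((r : ℝ) + 1) * c) /
        Real.exp ((1 + e) * c * r) := by
    apply div_le_div₀ (by positivity) _ (Real.exp_pos _) h3
    exact mul_le_mul h1 h2 (by positivity) (by positivity)
  refine h4.trans ?_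
  rw [← Real.exp_add, ← Real.exp_sub]
  apply Real.exp_le_exp.mpr
  have h5 : (4 * A + 20) * c ≤ e * r := by
    rw [div_le_iff₀ he] at hr
    linarith
  have h6 : (4 * A + 20) * c * c ≤ e * r * c := mul_le_mul_of_nonneg_right h5 (by linarith)
  have h7 : e * c ≤ c := by nlinarith
  have h8 : c ≤ c ^ 2 := by nlinarith
  nlinarith

theorem main (h : S_EN) : S_ENB := by
  intro ε A hε hA
  set e : ℝ := min ε 1 with he_def
  have he : 0 < e := lt_min hε one_pos
  have he1 : e ≤ 1 := min_le_right _ _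
  have heε : e ≤ ε := min_le_left _ _
  obtain ⟨c0, hc0, H⟩ := exists_c0 e A he hA
  refine ⟨c0, hc0, fun c n hc hcn => ?_⟩
  have hc1 : 1 ≤ c := hc0.trans hc
  have hn : (0 : ℝ) < n := by linarith
  have hX := H c hc
  set r : ℕ := ⌈(4 * A + 20) * c / e⌉₊ with hr_def
  have hpos : 0 < (4 * A + 20) * c / e := by positivity
  have hr : (4 * A + 20) * c / e ≤ (r : ℝ) := Nat.le_ceil _
  have hr2 : (r : ℝ) < (4 * A + 20) * c / e + 1 := Nat.ceil_lt_add_one hpos.le
  have hr' : (r : ℝ) + 1 ≤ Real.exp (e * c / 2) := by linarith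
  have hr1 : 1 ≤ r := Nat.ceil_pos.mpr hpos
  set K : ℕ := ⌈Real.exp ((1 + ε) * c)⌉₊ with hK_def
  have hK1 : 1 ≤ K := Nat.ceil_pos.mpr (Real.exp_pos _)
  have hK : Real.exp ((1 + e) * c) ≤ (K : ℝ) := by
    refine le_trans (Real.exp_le_exp.mpr ?_) (Nat.le_ceil _)
    apply mul_le_mul_of_nonneg_right _ (by linarith)
    linarith
  have hδ := delta_le e A c n K r he he1 hA hc1 hcn hK hr hr'
  have hp0 : 0 < c / n := by positivity
  have hp1 : c / n < 1 := by rw [div_lt_one hn]; exact hcn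
  have hmain := h (c / n) (Real.exp ((A + 5) * c ^ 2)) (Real.exp (-((2 * A + 8) * c ^ 2))) n K r
    hp0 hp1 (Real.exp_pos _) hK1 hr1 hδ
  refine hmain.trans (mul_le_mul_of_nonneg_left ?_ hn.le)
  have h3 : (1 + 3 * (c / n)) ^ n ≤ Real.exp (3 * c) := by
    have h : 1 + 3 * (c / n) ≤ Real.exp (3 * (c / n)) := by
      have := Real.add_one_le_exp (3 * (c / n))
      linarith
    refine (pow_le_pow_left₀ (by positivity) h _).trans ?_
    rw [← Real.exp_nat_mul]
    apply le_of_eq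
    congr 1
    field_simp
  have hcc : c ≤ c ^ 2 := by nlinarith
  have h1c : 1 ≤ c ^ 2 := by nlinarith
  have a1 : Real.exp (-((2 * A + 8) * c ^ 2)) ≤ Real.exp (-(A * c ^ 2)) * Real.exp (-2) := by
    rw [← Real.exp_add]
    apply Real.exp_le_exp.mpr
    nlinarith
  have a2 : Real.exp ((A + 5) * c ^ 2) * Real.exp (-((2 * A + 8) * c ^ 2)) ≤
      Real.exp (-(A * c ^ 2)) * Real.exp (-2) := by
    rw [← Real.exp_add, ← Real.exp_add]
    apply Real.exp_le_exp.mpr
    nlinarith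
  have a3 : (Real.exp ((A + 5) * c ^ 2))⁻¹ * (6 * (1 + 3 * (c / n)) ^ n) ≤
      6 * (Real.exp (-(A * c ^ 2)) * Real.exp (-2)) := by
    rw [← Real.exp_neg, ← Real.exp_add]
    have b1 : Real.exp (-((A + 5) * c ^ 2)) * (6 * (1 + 3 * (c / n)) ^ n) ≤
        Real.exp (-((A + 5) * c ^ 2)) * (6 * Real.exp (3 * c)) := by
      apply mul_le_mul_of_nonneg_left _ (Real.exp_pos _).le
      linarith
    refine b1.trans ?_
    have b2 : Real.exp (-((A + 5) * c ^ 2)) * (6 * Real.exp (3 * c)) =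
        6 * Real.exp (-((A + 5) * c ^ 2) + 3 * c) := by
      rw [Real.exp_add]; ring
    rw [b2]
    apply mul_le_mul_of_nonneg_left _ (by norm_num)
    apply Real.exp_le_exp.mpr
    nlinarith
  have hE2 : Real.exp (-2) ≤ 2 / 9 := by
    rw [Real.exp_neg]
    have : (9 / 2 : ℝ) ≤ Real.exp 2 := by
      have h2 : Real.exp 2 = Real.exp 1 * Real.exp 1 := by
        rw [← Real.exp_add]; norm_num
      have := Real.exp_one_gt_d9
      rw [h2]
      nlinarith
    rw [inv_le_comm₀ (Real.exp_pos _) (by norm_num)]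
    linarith
  have hP : 0 < Real.exp (-(A * c ^ 2)) := Real.exp_pos _
  nlinarith [mul_le_mul_of_nonneg_left hE2 hP.le]

end

end Pool.Agent.H291.RL.Enb
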